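import Pool.Agent.N89.BD.Base
import Pool.Agent.W496.FK.PLQ
import Mathlib.RingTheory.Frobenius

/-!
Project BD, part GL1: places of Galois extensions and Frobenius elements.
-/

set_option autoImplicit false

namespace Pool.Agent.N455.BD.GL1

open NumberField Pool.Agent.H901R3.MS Pool.Agent.N89.BD

/-- elements of `K` as fractions prepared at a prime -/
theorem frac {K : Type} [Field K] [NumberField K] (P : Ideal (𝓞 K)) [P.IsPrime] (hP : P ≠ ⊥)
    (y : K) : (∃ a b : 𝓞 K, b ∉ P ∧ y * b = a) ∨ (∃ a b : 𝓞 K, b ∉ P ∧ a ∈ P ∧ y * a = b) := by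
  by_cases hy : y = 0
  · left
    refine ⟨0, 1, fun h => ?_, by simp [hy]⟩
    exact (Ideal.IsPrime.ne_top inferInstance) ((Ideal.eq_top_iff_one P).2 h)
  have : IsDiscreteValuationRing (Localization.AtPrime P) :=
    IsLocalization.AtPrime.isDiscreteValuationRing_of_dedekind_domain (𝓞 K) hP _
  have hg : ∀ y : P.primeCompl, IsUnit (algebraMap (𝓞 K) K y) := by
    intro y
    rw [isUnit_iff_ne_zero, Ne, FaithfulSMul.algebraMap_eq_zero_iff]
    intro h0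
    exact y.2 (h0 ▸ P.zero_mem)
  let _ : Algebra (Localization.AtPrime P) K :=
    (IsLocalization.lift (M := P.primeCompl) hg : Localization.AtPrime P →+* K).toAlgebra
  have : IsScalarTower (𝓞 K) (Localization.AtPrime P) K :=
    IsScalarTower.of_algebraMap_eq fun x => (IsLocalization.lift_eq hg x).symm
  have : IsFractionRing (Localization.AtPrime P) K :=
    IsFractionRing.isFractionRing_of_isDomain_of_isLocalization P.primeCompl _ K
  have key : ∀ z : K, IsLocalization.IsInteger (Localization.AtPrime P) z →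
      ∃ a b : 𝓞 K, b ∉ P ∧ z * b = a := by
    rintro z ⟨r, rfl⟩
    obtain ⟨⟨a, s⟩, rfl⟩ := IsLocalization.mk'_surjective P.primeCompl r
    refine ⟨a, s, s.2, ?_⟩
    have h1 := IsLocalization.mk'_spec (Localization.AtPrime P) a s
    have h2 := congrArg (algebraMap (Localization.AtPrime P) K) h1
    rw [map_mul, ← IsScalarTower.algebraMap_apply, ← IsScalarTower.algebraMap_apply] at h2
    exact h2
  rcases ValuationRing.isInteger_or_isInteger (Localization.AtPrime P) y with h | h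
  · exact Or.inl (key y h)
  · obtain ⟨a, b, hb, hab⟩ := key y⁻¹ h
    have h1 : y * a = b := by
      rw [← hab]
      field_simp
    by_cases ha : a ∈ P
    · exact Or.inr ⟨a, b, hb, ha, h1⟩
    · exact Or.inl ⟨b, a, ha, h1⟩

section
variable {K k : Type} [Field K] [NumberField K] [Field k]

theorem case1 (v : Place K k) (ψ : 𝓞 K →+* k) (hv : ∀ x : 𝓞 K, (x : K) ∈ v.A ∧ v.r (x : K) = ψ x)
    {y : K} {a b : 𝓞 K} (hb : ψ b ≠ 0) (h : y * b = a) : y ∈ v.A ∧ v.r y = ψ a / ψ b := by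
  have hb' : v.ρ ⟨(b : K), (hv b).1⟩ ≠ 0 := by
    rw [← v.r_of (hv b).1, (hv b).2]
    exact hb
  have hb0 : (b : K) ≠ 0 := by
    intro h0
    apply hb
    rw [← (hv b).2, h0, v.r_zero]
  have hinv : (b : K)⁻¹ ∈ v.A := v.inv_of_ne ⟨(b : K), (hv b).1⟩ hb'
  have hy : y ∈ v.A := by
    have : y = a * (b : K)⁻¹ := by
      rw [← h]
      field_simp
    rw [this]
    exact v.A.mul_mem (hv a).1 hinv
  refine ⟨hy, ?_⟩
  rw [eq_div_iff hb, ← (hv b).2, ← (hv a).2, ← h, v.r_mul hy (hv b).1]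

theorem case2 (v : Place K k) (ψ : 𝓞 K →+* k) (hv : ∀ x : 𝓞 K, (x : K) ∈ v.A ∧ v.r (x : K) = ψ x)
    {y : K} {a b : 𝓞 K} (hb : ψ b ≠ 0) (ha : ψ a = 0) (h : y * a = b) :
    y ∉ v.A ∧ v.r y = 0 := by
  have hy : y ∉ v.A := by
    intro hy
    apply hb
    rw [← (hv b).2, ← h, v.r_mul hy (hv a).1, (hv a).2, ha, mul_zero]
  exact ⟨hy, by simp [Place.r, hy]⟩

theorem dich (ψ : 𝓞 K →+* k) (hP : RingHom.ker ψ ≠ ⊥) (y : K) :
    (∃ a b : 𝓞 K, ψ b ≠ 0 ∧ y * b = a) ∨ (∃ a b : 𝓞 K, ψ b ≠ 0 ∧ ψ a = 0 ∧ y * a = b) := by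
  have hprime : (RingHom.ker ψ).IsPrime := RingHom.ker_isPrime ψ
  rcases frac (RingHom.ker ψ) hP y with ⟨a, b, hb, h⟩ | ⟨a, b, hb, ha, h⟩
  · exact Or.inl ⟨a, b, fun h0 => hb ((RingHom.mem_ker).2 h0), h⟩
  · exact Or.inr ⟨a, b, fun h0 => hb ((RingHom.mem_ker).2 h0), (RingHom.mem_ker).1 ha, h⟩

end

theorem main : S_GL1 := by
  intro K M _ _ _ _ _ _ k _ _ w φ hφ hw Ω _ _ _
  obtain ⟨p, hp⟩ := CharP.exists k
  have hp0 : p ≠ 0 := CharP.char_ne_zero_of_finite k p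
  have hPmax : (RingHom.ker φ).IsMaximal := RingHom.ker_isMaximal_of_surjective φ hφ
  obtain ⟨Q, hQ, hQP⟩ := Ideal.exists_maximal_ideal_liesOver_of_isIntegral (S := 𝓞 M)
    (RingHom.ker φ)
  have hover : RingHom.ker φ = Q.under (𝓞 K) := hQP.over
  have hmem : ∀ x : 𝓞 K, φ x = 0 ↔ algebraMap (𝓞 K) (𝓞 M) x ∈ Q := by
    intro x
    rw [← RingHom.mem_ker, hover]
    rfl
  have hpQ : ((p : ℕ) : 𝓞 M) ∈ Q := by
    have := (hmem (p : 𝓞 K)).1 (by rw [map_natCast, CharP.cast_eq_zero])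
    rwa [map_natCast] at this
  have hQne : Q ≠ ⊥ := by
    rintro rfl
    rw [Ideal.mem_bot, Nat.cast_eq_zero] at hpQ
    exact hp0 hpQ
  let _ : Field (𝓞 M ⧸ Q) := Ideal.Quotient.field Q
  have : Finite (𝓞 M ⧸ Q) := Ideal.finiteQuotientOfFreeOfNeBot Q hQne
  obtain ⟨V0, hV0⟩ := Pool.Agent.W496.FK.PLQ.main M (𝓞 M ⧸ Q) (Ideal.Quotient.mk Q)
    Ideal.Quotient.mk_surjective
  let g : 𝓞 K →+* 𝓞 M ⧸ Q := (Ideal.Quotient.mk Q).comp (algebraMap (𝓞 K) (𝓞 M))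
  have hg : RingHom.ker φ ≤ RingHom.ker g := by
    intro x hx
    rw [RingHom.mem_ker] at hx ⊢
    exact Ideal.Quotient.eq_zero_iff_mem.2 ((hmem x).1 hx)
  let i : k →+* 𝓞 M ⧸ Q := (φ.liftOfRightInverse (Function.surjInv hφ)
    (Function.rightInverse_surjInv hφ)) ⟨g, hg⟩
  have hi : ∀ x, i (φ x) = g x := fun x =>
    RingHom.liftOfRightInverse_comp_apply φ _ (Function.rightInverse_surjInv hφ) ⟨g, hg⟩ x
  let _ : Algebra k (𝓞 M ⧸ Q) := i.toAlgebra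
  have : Module.Finite k (𝓞 M ⧸ Q) := Module.Finite.of_finite
  let f : (𝓞 M ⧸ Q) →ₐ[k] Ω := IsAlgClosed.lift
  have hf : ∀ x : k, f (i x) = algebraMap k Ω x := fun x => f.commutes x
  let ψ : 𝓞 M →+* Ω := (f : (𝓞 M ⧸ Q) →+* Ω).comp (Ideal.Quotient.mk Q)
  have hψK : ∀ x : 𝓞 K, ψ (algebraMap (𝓞 K) (𝓞 M) x) = algebraMap k Ω (φ x) := by
    intro x
    rw [← hf, hi]
    rfl
  set V : Place M Ω := Place.post V0 (f : (𝓞 M ⧸ Q) →+* Ω) with hVdef
  have hV : ∀ x : 𝓞 M, (x : M) ∈ V.A ∧ V.r (x : M) = ψ x := by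
    intro x
    refine ⟨(hV0 x).1, ?_⟩
    rw [hVdef, post_r, (hV0 x).2]
    rfl
  have hψ0 : ∀ x : 𝓞 M, ψ x = 0 ↔ x ∈ Q := by
    intro x
    have : ψ x = f (Ideal.Quotient.mk Q x) := rfl
    rw [this, map_eq_zero, Ideal.Quotient.eq_zero_iff_mem]
  have hkerM : RingHom.ker ψ ≠ ⊥ := by
    intro h
    have h1 : ((p : ℕ) : 𝓞 M) ∈ RingHom.ker ψ := (hψ0 _).2 hpQ
    rw [h, Ideal.mem_bot, Nat.cast_eq_zero] at h1
    exact hp0 h1
  obtain ⟨σ, hσ⟩ := IsArithFrobAt.exists_of_isInvariant (𝓞 K) (M ≃ₐ[K] M) Q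
  have hcard : Nat.card (𝓞 K ⧸ Q.under (𝓞 K)) = Fintype.card k := by
    rw [← hover, ← Nat.card_eq_fintype_card]
    exact Nat.card_congr (RingHom.quotientKerEquivOfSurjective hφ).toEquiv
  have hfrob : ∀ x : 𝓞 M, ψ (σ • x) = ψ x ^ Fintype.card k := by
    intro x
    have h1 := hσ x
    rw [hcard] at h1
    have h2 := (hψ0 _).2 h1
    rw [map_sub, map_pow, sub_eq_zero] at h2
    exact h2
  have hcoe : ∀ x : 𝓞 M, ((σ • x : 𝓞 M) : M) = σ (x : M) := fun x => rfl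
  refine ⟨V, σ, fun x => (hV x).1, ?_, ?_⟩
  · intro y
    have hkerK : RingHom.ker ((algebraMap k Ω).comp φ) ≠ ⊥ := by
      intro h
      have h1 : ((p : ℕ) : 𝓞 K) ∈ RingHom.ker ((algebraMap k Ω).comp φ) := by
        rw [RingHom.mem_ker, RingHom.comp_apply, map_natCast, CharP.cast_eq_zero, map_zero]
      rw [h, Ideal.mem_bot, Nat.cast_eq_zero] at h1
      exact hp0 h1
    have hv1 : ∀ x : 𝓞 K, (x : K) ∈ (Place.pre V (algebraMap K M)).A ∧
        (Place.pre V (algebraMap K M)).r (x : K) = ((algebraMap k Ω).comp φ) x := by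
      intro x
      have h1 : algebraMap K M (x : K) = ((algebraMap (𝓞 K) (𝓞 M) x : 𝓞 M) : M) := rfl
      rw [pre_mem, pre_r, h1, (hV _).2, hψK]
      exact ⟨(hV _).1, rfl⟩
    have hv2 : ∀ x : 𝓞 K, (x : K) ∈ (Place.post w (algebraMap k Ω)).A ∧
        (Place.post w (algebraMap k Ω)).r (x : K) = ((algebraMap k Ω).comp φ) x := by
      intro x
      rw [post_r, (hw x).2]
      exact ⟨(hw x).1, rfl⟩
    have hA : ∀ y, y ∈ (Place.post w (algebraMap k Ω)).A ↔ y ∈ w.A := fun y => Iff.rfl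
    rcases dich ((algebraMap k Ω).comp φ) hkerK y with ⟨a, b, hb, h⟩ | ⟨a, b, hb, ha, h⟩
    · have h1 := case1 _ _ hv1 hb h
      have h2 := case1 _ _ hv2 hb h
      rw [pre_mem, pre_r] at h1
      rw [hA, post_r] at h2
      exact ⟨⟨fun _ => h2.1, fun _ => h1.1⟩, h1.2.trans h2.2.symm⟩
    · have h1 := case2 _ _ hv1 hb ha h
      have h2 := case2 _ _ hv2 hb ha h
      rw [pre_mem, pre_r] at h1
      rw [hA, post_r] at h2
      exact ⟨⟨fun h3 => absurd h3 h1.1, fun h3 => absurd h3 h2.1⟩, h1.2.trans h2.2.symm⟩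
  · intro y
    rcases dich ψ hkerM y with ⟨a, b, hb, h⟩ | ⟨a, b, hb, ha, h⟩
    · have h1 := case1 V ψ hV hb h
      have h2 : σ y * ((σ • b : 𝓞 M) : M) = ((σ • a : 𝓞 M) : M) := by
        rw [hcoe, hcoe, ← map_mul, h]
      have h3 := case1 V ψ hV (b := σ • b) (by rw [hfrob]; exact pow_ne_zero _ hb) h2
      refine ⟨⟨fun _ => h1.1, fun _ => h3.1⟩, fun _ => ?_⟩
      rw [h3.2, h1.2, hfrob, hfrob, div_pow]
    · have h1 := case2 V ψ hV hb ha h
      have h2 : σ y * ((σ • a : 𝓞 M) : M) = ((σ • b : 𝓞 M) : M) := by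
        rw [hcoe, hcoe, ← map_mul, h]
      have h3 := case2 V ψ hV (b := σ • b) (by rw [hfrob]; exact pow_ne_zero _ hb)
        (by rw [hfrob, ha, zero_pow Fintype.card_ne_zero]) h2
      exact ⟨⟨fun h4 => absurd h4 h3.1, fun h4 => absurd h4 h1.1⟩, fun h4 => absurd h4 h1.1⟩

end Pool.Agent.N455.BD.GL1
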